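import Mathlib
import Pool.Agent.Q271.ZG.Stm

/-!
# Project ZG, job ARI, part 1: diagonal parts, classes, relations
-/

set_option autoImplicit false

namespace Pool.Agent.Q251.ZG

open Matrix Pool.Agent.Q60.ED Pool.Agent.Q271.ZG

variable {ι : Type} [Fintype ι] [DecidableEq ι] {𝔤 : Submodule ℂ (Matrix ι ι ℂ)} {ρ : ι → ℝ}

/-! ### the diagonal part -/

theorem filter_mem (hA : Adapted 𝔤 ρ) {x : Matrix ι ι ℂ} (hx : x ∈ 𝔤) (F : Finset ℝ) :
    (Matrix.of fun i j => ((∏ v ∈ F, (1 - (ρ i - ρ j) / v) : ℝ) : ℂ) * x i j) ∈ 𝔤 := by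
  induction F using Finset.induction_on with
  | empty =>
    convert hx using 1
    ext i j
    simp
  | insert v F hv ih =>
    set y : Matrix ι ι ℂ :=
      Matrix.of fun i j => ((∏ v ∈ F, (1 - (ρ i - ρ j) / v) : ℝ) : ℂ) * x i j with hy
    have h1 : y - ((v : ℂ)⁻¹) • (dg ρ * y - y * dg ρ) ∈ 𝔤 :=
      𝔤.sub_mem ih (𝔤.smul_mem _ (hA.lie _ hA.mem _ ih))
    convert h1 using 1
    ext i j
    simp only [Finset.prod_insert hv, of_apply, Matrix.sub_apply, Matrix.smul_apply, dg, diagonal_mul, mul_diagonal,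
      smul_eq_mul, hy]
    push_cast
    ring

theorem diag_mem (hA : Adapted 𝔤 ρ) {x : Matrix ι ι ℂ} (hx : x ∈ 𝔤) :
    (diagonal fun j => x j j) ∈ 𝔤 := by
  classical
  set F : Finset ℝ := (Finset.univ.image fun p : ι × ι => ρ p.1 - ρ p.2).erase 0 with hF
  have h1 := filter_mem hA hx F
  set y : Matrix ι ι ℂ :=
      Matrix.of fun i j => ((∏ v ∈ F, (1 - (ρ i - ρ j) / v) : ℝ) : ℂ) * x i j with hy
  have h2 : ∀ i j, ρ i ≠ ρ j → y i j = 0 := by
    intro i j hij
    have h3 : ρ i - ρ j ∈ F := by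
      rw [hF, Finset.mem_erase]
      exact ⟨sub_ne_zero.2 hij, Finset.mem_image.2 ⟨(i, j), Finset.mem_univ _, rfl⟩⟩
    rw [hy, of_apply, Finset.prod_eq_zero h3]
    · simp
    · rw [div_self (sub_ne_zero.2 hij), sub_self]
  have h4 : ∀ i, y i i = x i i := by
    intro i
    rw [hy, of_apply]
    have : ∏ v ∈ F, (1 - (ρ i - ρ i) / v) = 1 := by
      apply Finset.prod_eq_one
      intro v _
      rw [sub_self, zero_div, sub_zero]
    rw [this]
    simp
  have h5 : ∀ i j, i ≠ j → y i j = 0 := by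
    apply hA.diag y h1
    intro i j hij
    by_contra h
    exact hij (h2 i j h)
  have h6 : (diagonal fun j => x j j) = y := by
    ext i j
    by_cases hij : i = j
    · subst hij
      rw [diagonal_apply_eq, h4]
    · rw [diagonal_apply_ne _ hij, h5 i j hij]
  rw [h6]
  exact h1

theorem re_mem (hA : Adapted 𝔤 ρ) {x : Matrix ι ι ℂ} (hx : x ∈ 𝔤) :
    dg (fun j => (x j j).re) ∈ 𝔤 := by
  have h1 := diag_mem hA hx
  have h2 := hA.star _ h1
  have h3 := 𝔤.smul_mem ((1 : ℂ) / 2) (𝔤.add_mem h1 h2)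
  convert h3 using 1
  ext i j
  by_cases hij : i = j
  · subst hij
    simp only [dg, diagonal_apply_eq, Matrix.smul_apply, Matrix.add_apply, conjTranspose_apply,
      smul_eq_mul, RCLike.star_def]
    rw [Complex.add_conj]
    push_cast
    ring
  · simp [dg, diagonal_apply_ne _ hij]

theorem im_mem (hA : Adapted 𝔤 ρ) {x : Matrix ι ι ℂ} (hx : x ∈ 𝔤) :
    dg (fun j => (x j j).im) ∈ 𝔤 := by
  have h1 := re_mem hA (𝔤.smul_mem (-Complex.I) hx)
  convert h1 using 2
  ext j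
  simp

/-! ### classes -/

/-- the classes of coordinates -/
def Cl (𝔤 : Submodule ℂ (Matrix ι ι ℂ)) (j k : ι) : Prop := ∀ z ∈ Ctr 𝔤, z j j = z k k

theorem ctr_eq (hA : Adapted 𝔤 ρ) {z : Matrix ι ι ℂ} (hz : z ∈ Ctr 𝔤) :
    z = diagonal fun j => z j j := by
  ext i j
  by_cases hij : i = j
  · subst hij
    rw [diagonal_apply_eq]
  · rw [diagonal_apply_ne _ hij, hA.ctr z hz i j hij]

theorem cl_of_comm (hA : Adapted 𝔤 ρ) {x : Matrix ι ι ℂ} (hx : ∀ z ∈ Ctr 𝔤, z * x = x * z)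
    {i j : ι} (hij : x i j ≠ 0) : Cl 𝔤 i j := by
  intro z hz
  have h := congrFun (congrFun (hx z hz) i) j
  rw [ctr_eq hA hz, diagonal_mul, mul_diagonal] at h
  rw [mul_comm (x i j)] at h
  exact mul_right_cancel₀ hij h

theorem diagonal_mem_ctr (hA : Adapted 𝔤 ρ) {f : ι → ℂ} (hf : ∀ j k, Cl 𝔤 j k → f j = f k) :
    diagonal f ∈ Ctr 𝔤 := by
  have key : ∀ x : Matrix ι ι ℂ, (∀ z ∈ Ctr 𝔤, z * x = x * z) → diagonal f * x = x * diagonal f := by
    intro x hx
    ext i j
    rw [diagonal_mul, mul_diagonal]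
    by_cases hij : x i j = 0
    · rw [hij, mul_zero, zero_mul]
    · rw [hf i j (cl_of_comm hA hx hij), mul_comm]
  refine ⟨fun x hx => key x fun z hz => hz.1 x hx, fun c hc => key c fun z hz => hz.2 c hc⟩

/-! ### relations -/

variable {r : ℕ} {e : Fin r → Matrix ι ι ℂ} {α : Fin r → ι → ℝ} {top : ι → ι} {n : ι → Fin r → ℕ}

/-- a real relation -/
def Rel (𝔤 : Submodule ℂ (Matrix ι ι ℂ)) (α : Fin r → ι → ℝ) (top : ι → ι) (a : ι → ℝ)
    (m : Fin r → ℝ) : Prop :=
  ∀ s : ι → ℝ, dg s ∈ 𝔤 → ∑ j, a j * s (top j) = ∑ b, m b * (α b ⬝ᵥ s)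

theorem dg_alpha_mem (hA : Adapted 𝔤 ρ) (hS : Simple 𝔤 ρ r e α) (b : Fin r) : dg (α b) ∈ 𝔤 := by
  rw [← hS.self b]
  exact hA.lie _ (hS.mem b) _ (hA.star _ (hS.mem b))

theorem dg_sum_mem (hA : Adapted 𝔤 ρ) (hS : Simple 𝔤 ρ r e α) (q : Fin r → ℝ) :
    dg (fun j => ∑ b, q b * α b j) ∈ 𝔤 := by
  have h1 : dg (fun j => ∑ b, q b * α b j) = ∑ b, (q b : ℂ) • dg (α b) := by
    ext i j
    rw [Matrix.sum_apply]
    by_cases hij : i = j
    · subst hij
      simp [dg]
    · simp [dg, diagonal_apply_ne _ hij]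
  rw [h1]
  exact 𝔤.sum_mem fun b _ => 𝔤.smul_mem _ (dg_alpha_mem hA hS b)

/-- a class function is orthogonal to the roots -/
theorem cls_orth (hA : Adapted 𝔤 ρ) (hS : Simple 𝔤 ρ r e α) {f : ι → ℝ}
    (hf : ∀ j k, Cl 𝔤 j k → f j = f k) (b : Fin r) : ∑ j, f j * α b j = 0 := by
  have h1 : diagonal (fun j => (f j : ℂ)) ∈ Ctr 𝔤 :=
    diagonal_mem_ctr hA fun j k h => by rw [hf j k h]
  set z : Matrix ι ι ℂ := diagonal (fun j => (f j : ℂ)) with hz
  have h2 : (z * dg (α b)).trace = 0 := by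
    rw [← hS.self b, mul_sub, trace_sub, ← mul_assoc, ← mul_assoc, h1.1 _ (hA.star _ (hS.mem b)),
      trace_mul_comm, ← mul_assoc, sub_self]
  have h3 : (z * dg (α b)).trace = ((∑ j, f j * α b j : ℝ) : ℂ) := by
    rw [hz, dg, diagonal_mul_diagonal, trace_diagonal]
    push_cast
    rfl
  rw [h3] at h2
  exact_mod_cast h2

/-- the main computation: a relation whose coefficients are a class function -/
theorem rel_main (hA : Adapted 𝔤 ρ) (hS : Simple 𝔤 ρ r e α) (hT : Top 𝔤 r e α top n)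
    {f : ι → ℝ} (hf : ∀ j k, Cl 𝔤 j k → f j = f k) {m : Fin r → ℝ} (h : Rel 𝔤 α top f m) :
    (∀ b, m b = ∑ j, f j * n j b) ∧ ∀ s : ι → ℝ, dg s ∈ 𝔤 → ∑ j, f j * s j = 0 := by
  set q : Fin r → ℝ := fun b => m b - ∑ j, f j * n j b with hq
  have h1 : ∀ s : ι → ℝ, dg s ∈ 𝔤 → ∑ j, f j * s j = ∑ b, q b * (α b ⬝ᵥ s) := by
    intro s hs
    have h2 : ∀ j, s j = s (top j) - ∑ a, (n j a : ℝ) * (α a ⬝ᵥ s) := by
      intro j
      rw [← hT.chain j s hs]
      ring
    calc ∑ j, f j * s j = ∑ j, (f j * s (top j) - ∑ a, f j * n j a * (α a ⬝ᵥ s)) := by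
          apply Finset.sum_congr rfl
          intro j _
          conv_lhs => rw [h2 j]
          rw [mul_sub, Finset.mul_sum]
          congr 1
          apply Finset.sum_congr rfl
          intro a _
          ring
      _ = ∑ b, m b * (α b ⬝ᵥ s) - ∑ j, ∑ a, f j * n j a * (α a ⬝ᵥ s) := by
          rw [Finset.sum_sub_distrib, h s hs]
      _ = ∑ b, q b * (α b ⬝ᵥ s) := by
          rw [Finset.sum_comm, ← Finset.sum_sub_distrib]
          apply Finset.sum_congr rfl
          intro b _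
          rw [hq, sub_mul, Finset.sum_mul]
  set v : ι → ℝ := fun j => ∑ b, q b * α b j with hv
  have hvm : dg v ∈ 𝔤 := dg_sum_mem hA hS q
  have h3 : ∑ j, f j * v j = 0 := by
    rw [hv]
    calc ∑ j, f j * ∑ b, q b * α b j = ∑ b, q b * ∑ j, f j * α b j := by
          simp only [Finset.mul_sum]
          rw [Finset.sum_comm]
          apply Finset.sum_congr rfl
          intro b _
          apply Finset.sum_congr rfl
          intro j _
          ring
      _ = 0 := by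
          apply Finset.sum_eq_zero
          intro b _
          rw [cls_orth hA hS hf b, mul_zero]
  have h4 : v ⬝ᵥ v = 0 := by
    rw [← h3, h1 v hvm]
    simp only [dotProduct, hv, Finset.sum_mul, Finset.mul_sum]
    rw [Finset.sum_comm]
    apply Finset.sum_congr rfl
    intro b _
    apply Finset.sum_congr rfl
    intro j _
    apply Finset.sum_congr rfl
    intro b' _
    ring
  have h5 : v = 0 := dotProduct_self_eq_zero.1 h4
  have h6 : ∀ b, q b = 0 := by
    apply Fintype.linearIndependent_iff.1 hS.indep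
    ext j
    rw [Finset.sum_apply]
    have := congrFun h5 j
    simpa [hv] using this
  refine ⟨fun b => ?_, fun s hs => ?_⟩
  · have := h6 b
    rw [hq] at this
    exact sub_eq_zero.1 this
  · rw [h1 s hs]
    apply Finset.sum_eq_zero
    intro b _
    rw [h6 b, zero_mul]

/-- orthogonality to `𝔤` from the real diagonal elements -/
theorem orth_of_real (hA : Adapted 𝔤 ρ) {f : ι → ℝ}
    (h : ∀ s : ι → ℝ, dg s ∈ 𝔤 → ∑ j, f j * s j = 0) {x : Matrix ι ι ℂ} (hx : x ∈ 𝔤) :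
    (diagonal (fun j => (f j : ℂ)) * x).trace = 0 := by
  have h1 : (diagonal (fun j => (f j : ℂ)) * x).trace = ∑ j, (f j : ℂ) * x j j := by
    simp [trace, diagonal_mul]
  rw [h1]
  have h2 := h _ (re_mem hA hx)
  have h3 := h _ (im_mem hA hx)
  have h4 : ∑ j, (f j : ℂ) * x j j =
      ((∑ j, f j * (x j j).re : ℝ) : ℂ) + ((∑ j, f j * (x j j).im : ℝ) : ℂ) * Complex.I := by
    push_cast
    rw [Finset.sum_mul, ← Finset.sum_add_distrib]
    apply Finset.sum_congr rfl
    intro j _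
    conv_lhs => rw [← Complex.re_add_im (x j j)]
    ring
  rw [h4, h2, h3]
  simp

/-- a class function orthogonal to the real diagonal elements is a relation -/
theorem rel_of_orth (hT : Top 𝔤 r e α top n) {f : ι → ℝ}
    (h : ∀ s : ι → ℝ, dg s ∈ 𝔤 → ∑ j, f j * s j = 0) :
    Rel 𝔤 α top f fun b => ∑ j, f j * n j b := by
  intro s hs
  have h2 : ∀ j, s (top j) = s j + ∑ a, (n j a : ℝ) * (α a ⬝ᵥ s) := by
    intro j
    rw [← hT.chain j s hs]
    ring
  calc ∑ j, f j * s (top j) = ∑ j, f j * s j + ∑ j, ∑ a, f j * n j a * (α a ⬝ᵥ s) := by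
        rw [← Finset.sum_add_distrib]
        apply Finset.sum_congr rfl
        intro j _
        rw [h2 j, mul_add, Finset.mul_sum]
        congr 1
        apply Finset.sum_congr rfl
        intro a _
        ring
    _ = ∑ b, (∑ j, f j * n j b) * (α b ⬝ᵥ s) := by
        rw [h s hs, zero_add, Finset.sum_comm]
        apply Finset.sum_congr rfl
        intro b _
        rw [Finset.sum_mul]

end Pool.Agent.Q251.ZG
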