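import Mathlib
import Pool.Agent.Q251.ZG.Diag

/-!
# Project ZG, job ARI: the arithmetic of the lattice
-/

set_option autoImplicit false

namespace Pool.Agent.Q251.ZG

open Matrix Pool.Agent.Q60.ED Pool.Agent.Q271.ZG

variable {ι : Type} [Fintype ι] [DecidableEq ι] {𝔤 : Submodule ℂ (Matrix ι ι ℂ)} {ρ : ι → ℝ}

/-! ### representatives of the classes -/

theorem cl_refl (j : ι) : Cl 𝔤 j j := fun _ _ => rfl

theorem cl_symm {j k : ι} (h : Cl 𝔤 j k) : Cl 𝔤 k j := fun z hz => (h z hz).symm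

theorem cl_trans {j k l : ι} (h : Cl 𝔤 j k) (h' : Cl 𝔤 k l) : Cl 𝔤 j l :=
  fun z hz => (h z hz).trans (h' z hz)

/-- the equivalence relation -/
def st (𝔤 : Submodule ℂ (Matrix ι ι ℂ)) : Setoid ι where
  r := Cl 𝔤
  iseqv := ⟨cl_refl, cl_symm, cl_trans⟩

/-- the representative -/
noncomputable def rp (𝔤 : Submodule ℂ (Matrix ι ι ℂ)) (j : ι) : ι := (Quotient.mk (st 𝔤) j).out

theorem rp_cl (j : ι) : Cl 𝔤 (rp 𝔤 j) j := Quotient.exact (s := st 𝔤) (Quotient.out_eq _)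

theorem rp_congr {j k : ι} (h : Cl 𝔤 j k) : rp 𝔤 j = rp 𝔤 k := by
  unfold rp
  rw [Quotient.sound (s := st 𝔤) h]

/-- class functions -/
def CF {β : Type} (𝔤 : Submodule ℂ (Matrix ι ι ℂ)) (f : ι → β) : Prop :=
  ∀ j k, Cl 𝔤 j k → f j = f k

theorem CF.rp {β : Type} {f : ι → β} (h : CF 𝔤 f) (j : ι) : f (rp 𝔤 j) = f j := h _ _ (rp_cl j)

/-- sum over the class, at the representative -/
noncomputable def pu (𝔤 : Submodule ℂ (Matrix ι ι ℂ)) (a : ι → ℤ) (k : ι) : ℤ := by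
  classical exact ∑ j ∈ Finset.univ.filter (fun j => rp 𝔤 j = k), a j

/-- size of the class, at the representative -/
noncomputable def ct (𝔤 : Submodule ℂ (Matrix ι ι ℂ)) (k : ι) : ℕ := by
  classical exact (Finset.univ.filter (fun j => rp 𝔤 j = k)).card

/-- the average over the class -/
noncomputable def av (𝔤 : Submodule ℂ (Matrix ι ι ℂ)) (a : ι → ℤ) (j : ι) : ℚ :=
  (pu 𝔤 a (rp 𝔤 j) : ℚ) / ct 𝔤 (rp 𝔤 j)

theorem av_cf (a : ι → ℤ) : CF 𝔤 (av 𝔤 a) := by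
  intro j k h
  unfold av
  rw [rp_congr h]

theorem pu_eq_zero (a : ι → ℤ) {k : ι} (h : ct 𝔤 k = 0) : pu 𝔤 a k = 0 := by
  classical
  unfold ct at h
  unfold pu
  rw [Finset.card_eq_zero] at h
  rw [h, Finset.sum_empty]

theorem ct_pos (j : ι) : 0 < ct 𝔤 (rp 𝔤 j) := by
  classical
  unfold ct
  apply Finset.card_pos.2
  exact ⟨j, by simp⟩

theorem ct_le (k : ι) : ct 𝔤 k ≤ Fintype.card ι := by
  classical
  unfold ct
  exact Finset.card_le_univ _

theorem fib (H : ι → ℝ) (h0 : ∀ k, ct 𝔤 k = 0 → H k = 0) :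
    ∑ j, H (rp 𝔤 j) / ct 𝔤 (rp 𝔤 j) = ∑ k, H k := by
  classical
  rw [← Finset.sum_fiberwise Finset.univ (fun j => rp 𝔤 j)]
  apply Finset.sum_congr rfl
  intro k _
  have h1 : ∀ j ∈ Finset.univ.filter (fun j => rp 𝔤 j = k),
      H (rp 𝔤 j) / ct 𝔤 (rp 𝔤 j) = H k / ct 𝔤 k := by
    intro j hj
    rw [Finset.mem_filter] at hj
    rw [hj.2]
  rw [Finset.sum_congr rfl h1, Finset.sum_const, nsmul_eq_mul]
  have h2 : (Finset.univ.filter (fun j => rp 𝔤 j = k)).card = ct 𝔤 k := by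
    unfold ct
    rfl
  rw [h2]
  by_cases hk : ct 𝔤 k = 0
  · rw [hk, h0 k hk]
    simp
  · have : (ct 𝔤 k : ℝ) ≠ 0 := by exact_mod_cast hk
    field_simp

theorem sum_pu (a : ι → ℤ) {g : ι → ℝ} (hg : CF 𝔤 g) :
    ∑ k, (pu 𝔤 a k : ℝ) * g k = ∑ j, (a j : ℝ) * g j := by
  classical
  conv_rhs => rw [← Finset.sum_fiberwise Finset.univ (fun j => rp 𝔤 j)]
  apply Finset.sum_congr rfl
  intro k _
  unfold pu
  push_cast
  rw [Finset.sum_mul]
  apply Finset.sum_congr rfl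
  intro j hj
  rw [Finset.mem_filter] at hj
  rw [← hj.2, hg.rp]

theorem sum_av (a : ι → ℤ) {g : ι → ℝ} (hg : CF 𝔤 g) :
    ∑ j, (av 𝔤 a j : ℝ) * g j = ∑ j, (a j : ℝ) * g j := by
  rw [← sum_pu a hg, ← fib (𝔤 := 𝔤) (fun k => (pu 𝔤 a k : ℝ) * g k)]
  · apply Finset.sum_congr rfl
    intro j _
    rw [hg.rp]
    unfold av
    push_cast
    ring
  · intro k hk
    rw [pu_eq_zero a hk]
    simp

theorem abs_pu (a : ι → ℤ) : ∑ k, |(pu 𝔤 a k : ℝ)| = ∑ j, |(av 𝔤 a j : ℝ)| := by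
  rw [← fib (𝔤 := 𝔤) (fun k => |(pu 𝔤 a k : ℝ)|)]
  · apply Finset.sum_congr rfl
    intro j _
    unfold av
    push_cast
    rw [abs_div, Nat.abs_cast]
  · intro k hk
    rw [pu_eq_zero a hk]
    simp

theorem zpow_sum_aux {z : ℂ} (hz : z ≠ 0) (a : ι → ℤ) (s : Finset ι) :
    z ^ (∑ j ∈ s, a j) = ∏ j ∈ s, z ^ a j := by
  induction s using Finset.induction_on with
  | empty => simp
  | insert i s hi ih => rw [Finset.sum_insert hi, Finset.prod_insert hi, zpow_add₀ hz, ih]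

theorem prod_pu (a : ι → ℤ) {ζ : ι → ℂ} (hζ : CF 𝔤 ζ) (h0 : ∀ j, ζ j ≠ 0) :
    ∏ k, ζ k ^ pu 𝔤 a k = ∏ j, ζ j ^ a j := by
  classical
  conv_rhs => rw [← Finset.prod_fiberwise Finset.univ (fun j => rp 𝔤 j)]
  apply Finset.prod_congr rfl
  intro k _
  unfold pu
  rw [zpow_sum_aux (h0 k)]
  apply Finset.prod_congr rfl
  intro j hj
  rw [Finset.mem_filter] at hj
  rw [← hj.2, hζ.rp]

/-! ### small elements -/

theorem eigInt_diagonal (Y : ℕ) (f : ι → ℂ) :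
    EigInt Y (diagonal f) ↔ ∀ j, ∃ m : ℤ, |m| ≤ Y ∧ f j = m := by
  unfold EigInt
  have h1 : ∀ p : Polynomial ℂ, Polynomial.aeval (diagonal f) p =
      diagonal fun j => p.eval (f j) := by
    intro p
    have h2 := Polynomial.aeval_algHom_apply (Matrix.diagonalAlgHom (n := ι) (α := ℂ) ℂ) f p
    have h3 : (Matrix.diagonalAlgHom (n := ι) (α := ℂ) ℂ) f = diagonal f := rfl
    rw [h3] at h2
    rw [h2]
    change diagonal (Polynomial.aeval f p) = _
    congr 1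
    ext j
    have h4 := Polynomial.aeval_algHom_apply (Pi.evalAlgHom ℂ (fun _ : ι => ℂ) j) f p
    simp only [Pi.evalAlgHom_apply] at h4
    rw [← h4, Polynomial.coe_aeval_eq_eval]
  rw [h1]
  constructor
  · intro h j
    have h2 := congrFun (congrFun h j) j
    rw [diagonal_apply_eq, Polynomial.eval_prod, Matrix.zero_apply, Finset.prod_eq_zero_iff] at h2
    obtain ⟨m, hm, hm'⟩ := h2
    rw [Finset.mem_Icc] at hm
    refine ⟨m, abs_le.2 hm, ?_⟩
    simpa [sub_eq_zero] using hm'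
  · intro h
    ext i j
    by_cases hij : i = j
    · subst hij
      obtain ⟨m, hm, hm'⟩ := h i
      rw [diagonal_apply_eq, Polynomial.eval_prod, Matrix.zero_apply, Finset.prod_eq_zero_iff]
      refine ⟨m, Finset.mem_Icc.2 (abs_le.1 hm), ?_⟩
      simp [hm']
    · rw [diagonal_apply_ne _ hij, Matrix.zero_apply]

/-- the integral vectors of the small elements -/
structure Sm (𝔤 : Submodule ℂ (Matrix ι ι ℂ)) (Y : ℕ) (m : ι → ℤ) : Prop where
  le : ∀ j, |m j| ≤ Y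
  cf : CF 𝔤 m
  orth : ∀ s : ι → ℝ, dg s ∈ 𝔤 → ∑ j, (m j : ℝ) * s j = 0

theorem Sm.small (hA : Adapted 𝔤 ρ) {Y : ℕ} {m : ι → ℤ} (h : Sm 𝔤 Y m) :
    (diagonal fun j => (m j : ℂ)) ∈ Small 𝔤 Y := by
  refine ⟨diagonal_mem_ctr hA fun j k hjk => by rw [h.cf j k hjk], ?_, ?_⟩
  · intro x hx
    have h1 := orth_of_real hA (f := fun j => (m j : ℝ)) h.orth hx
    have h2 : (diagonal fun j => (m j : ℂ)) = diagonal fun j => (((m j : ℤ) : ℝ) : ℂ) := by
      congr 1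
    rw [h2]
    exact h1
  · rw [eigInt_diagonal]
    exact fun j => ⟨m j, h.le j, rfl⟩

theorem small_sm (hA : Adapted 𝔤 ρ) {Y : ℕ} {z : Matrix ι ι ℂ} (hz : z ∈ Small 𝔤 Y) :
    ∃ m : ι → ℤ, z = (diagonal fun j => (m j : ℂ)) ∧ Sm 𝔤 Y m := by
  obtain ⟨h1, h2, h3⟩ := hz
  have h4 := ctr_eq hA h1
  rw [h4, eigInt_diagonal] at h3
  choose m hm hm' using h3
  have h5 : z = diagonal fun j => (m j : ℂ) := by
    rw [h4]
    congr 1
    ext j
    exact hm' j
  refine ⟨m, h5, hm, ?_, ?_⟩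
  · intro j k hjk
    have h6 := hjk z h1
    rw [hm' j, hm' k] at h6
    exact_mod_cast h6
  · intro s hs
    have h6 := h2 _ hs
    rw [h5, dg, diagonal_mul_diagonal, trace_diagonal] at h6
    have h7 : ((∑ j, (m j : ℝ) * s j : ℝ) : ℂ) = 0 := by
      rw [← h6]
      push_cast
      rfl
    exact_mod_cast h7

/-- rational diagonal matrices -/
noncomputable def DQ : (ι → ℚ) →ₗ[ℚ] Matrix ι ι ℂ where
  toFun f := diagonal fun j => (f j : ℂ)
  map_add' f g := by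
    rw [diagonal_add]
    congr 1
    ext j
    simp
  map_smul' q f := by
    ext i j
    by_cases hij : i = j
    · subst hij
      simp [Rat.smul_def]
    · simp [diagonal_apply_ne _ hij]

theorem DQ_inj : Function.Injective (DQ (ι := ι)) := by
  intro f g h
  ext j
  have h1 := congrFun (congrFun h j) j
  change (diagonal fun j => (f j : ℂ)) j j = (diagonal fun j => (g j : ℂ)) j j at h1
  rw [diagonal_apply_eq, diagonal_apply_eq] at h1
  exact_mod_cast h1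

/-- the rational form of the hypothesis on the lattice -/
theorem span_sm (hA : Adapted 𝔤 ρ) {Y : ℕ} (hHL : HL 𝔤 Y) {Y' : ℕ} {F : ι → ℤ} (hF : Sm 𝔤 Y' F) :
    (fun j => (F j : ℚ)) ∈
      Submodule.span ℚ {x : ι → ℚ | ∃ m : ι → ℤ, Sm 𝔤 Y m ∧ x = fun j => (m j : ℚ)} := by
  have h1 := hHL Y' _ (hF.small hA)
  have h2 : Small 𝔤 Y = DQ '' {x : ι → ℚ | ∃ m : ι → ℤ, Sm 𝔤 Y m ∧ x = fun j => (m j : ℚ)} := by
    ext z
    constructor
    · intro hz
      obtain ⟨m, hm, hm'⟩ := small_sm hA hz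
      refine ⟨_, ⟨m, hm', rfl⟩, ?_⟩
      rw [hm]
      change diagonal (fun j => (((m j : ℤ) : ℚ) : ℂ)) = _
      congr 1
    · rintro ⟨x, ⟨m, hm, rfl⟩, rfl⟩
      have := hm.small hA
      convert this using 1
      change diagonal (fun j => (((m j : ℤ) : ℚ) : ℂ)) = _
      congr 1
  rw [h2, ← Submodule.map_span] at h1
  obtain ⟨f, hf, hf'⟩ := h1
  have h3 : f = fun j => (F j : ℚ) := by
    apply DQ_inj
    rw [hf']
    change _ = diagonal (fun j => (((F j : ℤ) : ℚ) : ℂ))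
    congr 1
  rw [← h3]
  exact hf

/-- class averages of an integral class function -/
theorem av_of_cf {m : ι → ℤ} (hm : CF 𝔤 m) (j : ι) : av 𝔤 m j = m j := by
  classical
  unfold av pu
  have h1 : ∀ i ∈ Finset.univ.filter (fun i => rp 𝔤 i = rp 𝔤 j), m i = m j := by
    intro i hi
    rw [Finset.mem_filter] at hi
    rw [← hm.rp i, hi.2, hm.rp j]
  rw [Finset.sum_congr rfl h1, Finset.sum_const, nsmul_eq_mul]
  have h2 : (Finset.univ.filter (fun i => rp 𝔤 i = rp 𝔤 j)).card = ct 𝔤 (rp 𝔤 j) := by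
    unfold ct
    rfl
  rw [h2]
  have h3 : (ct 𝔤 (rp 𝔤 j) : ℚ) ≠ 0 := by
    have := ct_pos (𝔤 := 𝔤) j
    exact_mod_cast this.ne'
  push_cast
  field_simp

theorem pu_sub (a b : ι → ℤ) (k : ι) : pu 𝔤 (fun j => a j - b j) k = pu 𝔤 a k - pu 𝔤 b k := by
  classical
  unfold pu
  rw [Finset.sum_sub_distrib]

theorem av_sub (a b : ι → ℤ) (j : ι) : av 𝔤 (fun j => a j - b j) j = av 𝔤 a j - av 𝔤 b j := by
  unfold av
  rw [pu_sub]
  push_cast
  ring

/-! ### the decomposition -/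

/-- few terms in a rational combination -/
theorem few_terms (M : Set (ι → ℚ)) (f : ι → ℚ) (hf : f ∈ Submodule.span ℚ M) :
    ∃ (B : Finset (ι → ℚ)) (q : (ι → ℚ) → ℚ), (B : Set (ι → ℚ)) ⊆ M ∧
      B.card ≤ Fintype.card ι ∧ ∑ x ∈ B, q x • x = f := by
  classical
  obtain ⟨b, hbM, hspan, hli⟩ := exists_linearIndependent ℚ M
  have hfin : b.Finite := hli.setFinite
  obtain ⟨B, rfl⟩ := hfin.exists_finset_coe
  rw [← hspan, Submodule.mem_span_finset] at hf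
  obtain ⟨q, -, hq⟩ := hf
  refine ⟨B, q, hbM, ?_, hq⟩
  have h1 := hli.fintype_card_le_finrank
  rw [Module.finrank_fintype_fun_eq_card] at h1
  simpa using h1

variable {r : ℕ} {e : Fin r → Matrix ι ι ℂ} {α : Fin r → ι → ℝ} {top : ι → ι} {n : ι → Fin r → ℕ}

/-- the functions `s ∘ top` are class functions -/
theorem top_cf (hT : Top 𝔤 r e α top n) {s : ι → ℝ} (hs : dg s ∈ 𝔤) :
    CF 𝔤 fun j => s (top j) := fun j k h => hT.same j k h s hs

theorem rel_av (hT : Top 𝔤 r e α top n) {a : ι → ℤ} {m : Fin r → ℝ}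
    (h : Rel 𝔤 α top (fun j => (a j : ℝ)) m) : Rel 𝔤 α top (fun j => (av 𝔤 a j : ℝ)) m := by
  intro s hs
  rw [← h s hs]
  exact sum_av a (top_cf hT hs)

theorem av_main (hA : Adapted 𝔤 ρ) (hS : Simple 𝔤 ρ r e α) (hT : Top 𝔤 r e α top n)
    {a : ι → ℤ} {m : Fin r → ℝ} (h : Rel 𝔤 α top (fun j => (a j : ℝ)) m) :
    (∀ b, m b = ∑ j, (av 𝔤 a j : ℝ) * n j b) ∧
      ∀ s : ι → ℝ, dg s ∈ 𝔤 → ∑ j, (av 𝔤 a j : ℝ) * s j = 0 :=
  rel_main hA hS hT (f := fun j => (av 𝔤 a j : ℝ))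
    (fun j k hjk => by rw [av_cf a j k hjk]) (rel_av hT h)

/-- the average of a relation is a rational combination of few small vectors -/
theorem av_decomp (hA : Adapted 𝔤 ρ) (hS : Simple 𝔤 ρ r e α) (hT : Top 𝔤 r e α top n) {Y : ℕ}
    (hHL : HL 𝔤 Y) {a : ι → ℤ} {m : Fin r → ℝ} (h : Rel 𝔤 α top (fun j => (a j : ℝ)) m) :
    ∃ (B : Finset (ι → ℚ)) (q : (ι → ℚ) → ℚ) (M : (ι → ℚ) → ι → ℤ),
      (∀ x ∈ B, Sm 𝔤 Y (M x) ∧ x = fun j => (M x j : ℚ)) ∧
      B.card ≤ Fintype.card ι ∧ ∀ j, ∑ x ∈ B, q x * M x j = av 𝔤 a j := by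
  classical
  set N : ℕ := (Fintype.card ι).factorial with hN
  set F : ι → ℤ := fun j => pu 𝔤 a (rp 𝔤 j) * ((N / ct 𝔤 (rp 𝔤 j) : ℕ) : ℤ) with hF
  have hFav : ∀ j, (F j : ℚ) = N * av 𝔤 a j := by
    intro j
    have h1 : ct 𝔤 (rp 𝔤 j) ∣ N := Nat.dvd_factorial (ct_pos j) (ct_le _)
    have h2 : (ct 𝔤 (rp 𝔤 j) : ℚ) ≠ 0 := by
      have := ct_pos (𝔤 := 𝔤) j
      exact_mod_cast this.ne'
    have h3 : (((N / ct 𝔤 (rp 𝔤 j) : ℕ) : ℤ) : ℚ) = (N : ℚ) / ct 𝔤 (rp 𝔤 j) := by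
      rw [Int.cast_natCast, Nat.cast_div h1 h2]
    have h4 : (F j : ℚ) = (pu 𝔤 a (rp 𝔤 j) : ℚ) * (((N / ct 𝔤 (rp 𝔤 j) : ℕ) : ℤ) : ℚ) := by
      rw [hF, Int.cast_mul]
    rw [h4, h3]
    unfold av
    field_simp
  have hN0 : (N : ℚ) ≠ 0 := by
    have := Nat.factorial_pos (Fintype.card ι)
    exact_mod_cast this.ne'
  have hFr : ∀ j, (F j : ℝ) = N * (av 𝔤 a j : ℝ) := by
    intro j
    exact_mod_cast hFav j
  have hsm : Sm 𝔤 (∑ j, (F j).natAbs) F := by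
    refine ⟨fun j => ?_, fun j k hjk => ?_, fun s hs => ?_⟩
    · rw [Int.abs_eq_natAbs]
      exact_mod_cast Finset.single_le_sum (f := fun j => (F j).natAbs) (fun _ _ => Nat.zero_le _)
        (Finset.mem_univ j)
    · have h1 := hFav j
      rw [av_cf a j k hjk, ← hFav k] at h1
      exact_mod_cast h1
    · have h1 := (av_main hA hS hT h).2 s hs
      calc ∑ j, (F j : ℝ) * s j = N * ∑ j, (av 𝔤 a j : ℝ) * s j := by
            rw [Finset.mul_sum]
            apply Finset.sum_congr rfl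
            intro j _
            rw [hFr j, mul_assoc]
        _ = 0 := by rw [h1, mul_zero]
  have h2 := span_sm hA hHL hsm
  have h3 : (fun j => av 𝔤 a j) ∈
      Submodule.span ℚ {x : ι → ℚ | ∃ m : ι → ℤ, Sm 𝔤 Y m ∧ x = fun j => (m j : ℚ)} := by
    have h4 := Submodule.smul_mem _ (N : ℚ)⁻¹ h2
    convert h4 using 1
    ext j
    rw [Pi.smul_apply, smul_eq_mul, hFav j]
    field_simp
  obtain ⟨B, q, hB, hc, hq⟩ := few_terms _ _ h3
  have h5 : ∀ x : ι → ℚ, ∃ M : ι → ℤ, x ∈ B → Sm 𝔤 Y M ∧ x = fun j => (M j : ℚ) := by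
    intro x
    by_cases hx : x ∈ B
    · obtain ⟨M, h6, h7⟩ := hB hx
      exact ⟨M, fun _ => ⟨h6, h7⟩⟩
    · exact ⟨0, fun h => absurd h hx⟩
  choose M hM using h5
  refine ⟨B, q, M, fun x hx => hM x hx, hc, fun j => ?_⟩
  have h6 := congrFun hq j
  rw [Finset.sum_apply] at h6
  rw [← h6]
  apply Finset.sum_congr rfl
  intro x hx
  rw [Pi.smul_apply, smul_eq_mul]
  have h7 : x j = (M x j : ℚ) := congrFun (hM x hx).2 j
  rw [h7]

/-- bound of the multiplicities -/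
theorem n_bound (hT : Top 𝔤 r e α top n) (j : ι) :
    ∑ b, (n j b : ℝ) ≤ (Fintype.card ι : ℝ) := by
  have h1 := hT.len j
  have h2 : ∑ a, n j a ≤ Fintype.card ι := by omega
  exact_mod_cast h2

theorem m_bound (hT : Top 𝔤 r e α top n) (f : ι → ℝ) (m : Fin r → ℝ)
    (hm : ∀ b, m b = ∑ j, f j * n j b) : ∑ b, |m b| ≤ (Fintype.card ι : ℝ) * ∑ j, |f j| := by
  calc ∑ b, |m b| ≤ ∑ b, ∑ j, |f j| * n j b := by
        apply Finset.sum_le_sum
        intro b _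
        rw [hm b]
        refine (Finset.abs_sum_le_sum_abs _ _).trans (le_of_eq ?_)
        apply Finset.sum_congr rfl
        intro j _
        rw [abs_mul, Nat.abs_cast]
    _ = ∑ j, |f j| * ∑ b, (n j b : ℝ) := by
        rw [Finset.sum_comm]
        apply Finset.sum_congr rfl
        intro j _
        rw [Finset.mul_sum]
    _ ≤ ∑ j, |f j| * (Fintype.card ι : ℝ) := by
        apply Finset.sum_le_sum
        intro j _
        exact mul_le_mul_of_nonneg_left (n_bound hT j) (abs_nonneg _)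
    _ = (Fintype.card ι : ℝ) * ∑ j, |f j| := by rw [← Finset.sum_mul, mul_comm]

/-- a relation of small size is in the range of the hypothesis -/
theorem size_ok (hT : Top 𝔤 r e α top n) {Y K : ℕ} (hY : 1 ≤ Y)
    (hK : 3 * Fintype.card ι ^ 4 * Y ≤ K) (f : ι → ℝ) (a : ι → ℤ) (m : Fin r → ℤ)
    (ha : ∑ j, |(a j : ℝ)| ≤ ∑ j, |f j|) (hm : ∀ b, (m b : ℝ) = ∑ j, f j * n j b)
    (hf : ∑ j, |f j| ≤ (Fintype.card ι : ℝ) ^ 2 * Y) :
    ∑ j, |a j| + 2 * Fintype.card ι * ∑ b, |m b| ≤ (K : ℤ) := by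
  set c : ℝ := (Fintype.card ι : ℝ) with hc
  have hc0 : 0 ≤ c := by positivity
  have h1 := m_bound hT f (fun b => (m b : ℝ)) hm
  have h2 : ∑ j, |(a j : ℝ)| + 2 * c * ∑ b, |(m b : ℝ)| ≤ K := by
    have h3 : 2 * c * ∑ b, |(m b : ℝ)| ≤ 2 * c * (c * (c ^ 2 * Y)) := by
      apply mul_le_mul_of_nonneg_left _ (by positivity)
      exact h1.trans (mul_le_mul_of_nonneg_left hf hc0)
    have h4 : 3 * c ^ 4 * Y ≤ K := by
      rw [hc]
      exact_mod_cast hK
    have h5 : c ^ 2 * Y ≤ c ^ 4 * Y := by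
      apply mul_le_mul_of_nonneg_right _ (by positivity)
      rcases Nat.eq_zero_or_pos (Fintype.card ι) with h6 | h6
      · rw [hc, h6]
        norm_num
      · have h7 : (1 : ℝ) ≤ c := by
          rw [hc]
          exact_mod_cast h6
        exact pow_le_pow_right₀ h7 (by norm_num)
    nlinarith
  have h8 : ((∑ j, |a j| + 2 * Fintype.card ι * ∑ b, |m b| : ℤ) : ℝ) ≤ ((K : ℤ) : ℝ) := by
    push_cast
    exact h2
  exact_mod_cast h8

theorem prod_zpow_sub {ζ : ι → ℂ} (h0 : ∀ j, ζ j ≠ 0) (a b : ι → ℤ) :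
    ∏ j, ζ j ^ (a j - b j) = (∏ j, ζ j ^ a j) * (∏ j, ζ j ^ b j)⁻¹ := by
  rw [← Finset.prod_inv_distrib, ← Finset.prod_mul_distrib]
  apply Finset.prod_congr rfl
  intro j _
  rw [zpow_sub₀ (h0 j), div_eq_mul_inv]

theorem prod_zpow_comb {ζ : ι → ℂ} (h0 : ∀ j, ζ j ≠ 0) (B : Finset (ι → ℚ)) (t : (ι → ℚ) → ℤ)
    (M : (ι → ℚ) → ι → ℤ) (h : ∀ x ∈ B, ∏ j, ζ j ^ M x j = 1) :
    ∏ j, ζ j ^ (∑ x ∈ B, t x * M x j) = 1 := by
  classical
  have h1 : ∀ (z : ℂ), z ≠ 0 → ∀ (B : Finset (ι → ℚ)) (g : (ι → ℚ) → ℤ),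
      z ^ (∑ x ∈ B, g x) = ∏ x ∈ B, z ^ g x := by
    intro z hz B g
    induction B using Finset.induction_on with
    | empty => simp
    | insert i s hi ih => rw [Finset.sum_insert hi, Finset.prod_insert hi, zpow_add₀ hz, ih]
  have h2 : ∏ j, ζ j ^ (∑ x ∈ B, t x * M x j) = ∏ x ∈ B, (∏ j, ζ j ^ M x j) ^ t x := by
    rw [Finset.prod_congr rfl fun j _ => h1 (ζ j) (h0 j) B fun x => t x * M x j, Finset.prod_comm]
    apply Finset.prod_congr rfl
    intro x _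
    rw [← Finset.prod_zpow]
    apply Finset.prod_congr rfl
    intro j _
    rw [mul_comm, _root_.zpow_mul]
  rw [h2]
  apply Finset.prod_eq_one
  intro x hx
  rw [h x hx, _root_.one_zpow]

theorem main : S_ARI := by
  intro ι _ _ 𝔤 ρ r e α top n hA hS hT Y K hY hHL hK ζ h0 hζ hyp a m hrel
  classical
  have hrel' : Rel 𝔤 α top (fun j => (a j : ℝ)) (fun b => (m b : ℝ)) := hrel
  obtain ⟨B, q, M, hM, hBc, hq⟩ := av_decomp hA hS hT hHL hrel'
  have hζ' : CF 𝔤 ζ := hζ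
  -- the small vectors give products equal to one
  have hMrel : ∀ x ∈ B, Rel 𝔤 α top (fun j => (M x j : ℝ)) fun b => ∑ j, (M x j : ℝ) * n j b :=
    fun x hx => rel_of_orth hT (hM x hx).1.orth
  have hMle : ∀ x ∈ B, ∀ j, |(M x j : ℝ)| ≤ Y := by
    intro x hx j
    have h1 := (hM x hx).1.le j
    have h2 : ((|M x j| : ℤ) : ℝ) ≤ ((Y : ℤ) : ℝ) := by exact_mod_cast h1
    simpa using h2
  have hMone : ∀ x ∈ B, ∏ j, ζ j ^ M x j = 1 := by
    intro x hx
    apply hyp (M x) (fun b => ∑ j, M x j * n j b)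
    · have h1 := hMrel x hx
      intro s hs
      rw [h1 s hs]
      apply Finset.sum_congr rfl
      intro b _
      push_cast
      rfl
    · apply size_ok hT hY hK (fun j => (M x j : ℝ))
      · exact le_refl _
      · intro b
        push_cast
        rfl
      · calc ∑ j, |(M x j : ℝ)| ≤ ∑ _ : ι, (Y : ℝ) := Finset.sum_le_sum fun j _ => hMle x hx j
          _ = (Fintype.card ι : ℝ) * Y := by
              rw [Finset.sum_const, Finset.card_univ, nsmul_eq_mul]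
          _ ≤ (Fintype.card ι : ℝ) ^ 2 * Y := by
              apply mul_le_mul_of_nonneg_right _ (by positivity)
              rcases Nat.eq_zero_or_pos (Fintype.card ι) with h6 | h6
              · rw [h6]
                norm_num
              · have h7 : (1 : ℝ) ≤ (Fintype.card ι : ℝ) := by exact_mod_cast h6
                nlinarith
  -- the reduced relation
  set S : ι → ℤ := fun j => ∑ x ∈ B, ⌊q x⌋ * M x j with hS'
  set a' : ι → ℤ := fun j => a j - S j with ha'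
  set m' : Fin r → ℤ := fun b => m b - ∑ x ∈ B, ⌊q x⌋ * ∑ j, M x j * n j b with hm'
  have hScf : CF 𝔤 S := by
    intro j k hjk
    rw [hS']
    apply Finset.sum_congr rfl
    intro x hx
    rw [(hM x hx).1.cf j k hjk]
  have hrel2 : Rel 𝔤 α top (fun j => (a' j : ℝ)) (fun b => (m' b : ℝ)) := by
    intro s hs
    have h1 : ∑ j, (a' j : ℝ) * s (top j) =
        ∑ j, (a j : ℝ) * s (top j) - ∑ x ∈ B, (⌊q x⌋ : ℝ) * ∑ j, (M x j : ℝ) * s (top j) := by
      have h2 : ∑ x ∈ B, (⌊q x⌋ : ℝ) * ∑ j, (M x j : ℝ) * s (top j) =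
          ∑ j, (∑ x ∈ B, (⌊q x⌋ : ℝ) * (M x j : ℝ)) * s (top j) := by
        simp only [Finset.mul_sum, Finset.sum_mul]
        rw [Finset.sum_comm]
        apply Finset.sum_congr rfl
        intro j _
        apply Finset.sum_congr rfl
        intro x _
        ring
      rw [h2, ← Finset.sum_sub_distrib]
      apply Finset.sum_congr rfl
      intro j _
      rw [ha', hS']
      push_cast
      ring
    have h3 : ∑ b, (m' b : ℝ) * (α b ⬝ᵥ s) = ∑ b, (m b : ℝ) * (α b ⬝ᵥ s) -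
        ∑ x ∈ B, (⌊q x⌋ : ℝ) * ∑ b, (∑ j, (M x j : ℝ) * n j b) * (α b ⬝ᵥ s) := by
      have h2 : ∑ x ∈ B, (⌊q x⌋ : ℝ) * ∑ b, (∑ j, (M x j : ℝ) * n j b) * (α b ⬝ᵥ s) =
          ∑ b, (∑ x ∈ B, (⌊q x⌋ : ℝ) * ∑ j, (M x j : ℝ) * n j b) * (α b ⬝ᵥ s) := by
        have h5 : ∀ x ∈ B, (⌊q x⌋ : ℝ) * ∑ b, (∑ j, (M x j : ℝ) * n j b) * (α b ⬝ᵥ s) =
            ∑ b, ((⌊q x⌋ : ℝ) * ∑ j, (M x j : ℝ) * n j b) * (α b ⬝ᵥ s) := by
          intro x _
          rw [Finset.mul_sum]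
          apply Finset.sum_congr rfl
          intro b _
          ring
        rw [Finset.sum_congr rfl h5, Finset.sum_comm]
        apply Finset.sum_congr rfl
        intro b _
        rw [Finset.sum_mul]
      rw [h2, ← Finset.sum_sub_distrib]
      apply Finset.sum_congr rfl
      intro b _
      rw [hm']
      push_cast
      ring
    change ∑ j, (a' j : ℝ) * s (top j) = ∑ b, (m' b : ℝ) * (α b ⬝ᵥ s)
    rw [h1, h3, hrel s hs]
    congr 1
    apply Finset.sum_congr rfl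
    intro x hx
    rw [hMrel x hx s hs]
  -- averages of the reduced relation
  have hav : ∀ j, (av 𝔤 a' j : ℝ) = ∑ x ∈ B, ((Int.fract (q x) : ℚ) : ℝ) * (M x j : ℝ) := by
    intro j
    have h1 : av 𝔤 a' j = ∑ x ∈ B, Int.fract (q x) * (M x j : ℚ) := by
      rw [ha', av_sub, av_of_cf hScf, ← hq j, hS']
      push_cast
      rw [← Finset.sum_sub_distrib]
      apply Finset.sum_congr rfl
      intro x _
      rw [Int.fract]
      ring
    rw [h1]
    push_cast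
    rfl
  have hav2 : ∀ j, |(av 𝔤 a' j : ℝ)| ≤ (Fintype.card ι : ℝ) * Y := by
    intro j
    rw [hav j]
    calc |∑ x ∈ B, ((Int.fract (q x) : ℚ) : ℝ) * (M x j : ℝ)|
        ≤ ∑ x ∈ B, |((Int.fract (q x) : ℚ) : ℝ) * (M x j : ℝ)| := Finset.abs_sum_le_sum_abs _ _
      _ ≤ ∑ x ∈ B, (Y : ℝ) := by
          apply Finset.sum_le_sum
          intro x hx
          rw [abs_mul]
          have h1 : |((Int.fract (q x) : ℚ) : ℝ)| ≤ 1 := by
            rw [abs_of_nonneg (by exact_mod_cast Int.fract_nonneg (q x))]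
            exact_mod_cast (Int.fract_lt_one (q x)).le
          calc |((Int.fract (q x) : ℚ) : ℝ)| * |(M x j : ℝ)| ≤ 1 * Y :=
                mul_le_mul h1 (hMle x hx j) (abs_nonneg _) zero_le_one
            _ = Y := one_mul _
      _ = (B.card : ℝ) * Y := by rw [Finset.sum_const, nsmul_eq_mul]
      _ ≤ (Fintype.card ι : ℝ) * Y := by
          apply mul_le_mul_of_nonneg_right _ (by positivity)
          exact_mod_cast hBc
  have hmain := av_main hA hS hT hrel2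
  -- the hypothesis for the reduced relation
  have hone : ∏ j, ζ j ^ a' j = 1 := by
    rw [← prod_pu a' hζ' h0]
    apply hyp (pu 𝔤 a') m'
    · intro s hs
      rw [← hrel2 s hs]
      exact sum_pu a' (top_cf hT hs)
    · apply size_ok hT hY hK (fun j => (av 𝔤 a' j : ℝ))
      · rw [abs_pu]
      · exact hmain.1
      · calc ∑ j, |(av 𝔤 a' j : ℝ)| ≤ ∑ _ : ι, (Fintype.card ι : ℝ) * Y :=
              Finset.sum_le_sum fun j _ => hav2 j
          _ = (Fintype.card ι : ℝ) ^ 2 * Y := by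
              rw [Finset.sum_const, Finset.card_univ, nsmul_eq_mul]
              ring
  have h7 := prod_zpow_comb h0 B (fun x => ⌊q x⌋) M hMone
  have h8 : ∏ j, ζ j ^ (a j - S j) = (∏ j, ζ j ^ a j) * (∏ j, ζ j ^ S j)⁻¹ :=
    prod_zpow_sub h0 a S
  have h9 : ∏ j, ζ j ^ S j = 1 := h7
  have h10 : ∏ j, ζ j ^ (a j - S j) = 1 := hone
  rw [h10, h9, inv_one, mul_one] at h8
  exact h8.symm

end Pool.Agent.Q251.ZG
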