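import Mathlib
import Pool.Agent.Q271.ZG.Stm2

/-!
# Project ZG, job STAR: the Lie algebra of a polarised Hodge structure is stable under the adjoint
-/

set_option autoImplicit false

namespace Pool.Agent.Q251.ZG

open Matrix Pool.Agent.Q60.ED Pool.Agent.Q271.ZG

variable {ι : Type} [Fintype ι] [DecidableEq ι]

/-! ### comparison of coefficients -/

theorem coeff_zero {N : ℕ} {f : ℕ → Matrix ι ι ℂ}
    (h : ∀ z : ℂ, z ≠ 0 → ∑ w ∈ Finset.range N, z ^ w • f w = 0) :
    ∀ w ∈ Finset.range N, f w = 0 := by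
  intro w hw
  ext i j
  set p : Polynomial ℂ := ∑ w ∈ Finset.range N, Polynomial.monomial w (f w i j) with hp
  have h1 : ∀ z : ℂ, z ≠ 0 → p.eval z = 0 := by
    intro z hz
    have h2 := congrFun (congrFun (h z hz) i) j
    rw [Matrix.sum_apply] at h2
    rw [hp, Polynomial.eval_finsetSum]
    rw [Matrix.zero_apply] at h2
    rw [← h2]
    apply Finset.sum_congr rfl
    intro w _
    rw [Polynomial.eval_monomial, Matrix.smul_apply, smul_eq_mul, mul_comm]
  have h3 : p = 0 := by
    apply Polynomial.eq_zero_of_infinite_isRoot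
    apply Set.Infinite.mono (s := {z : ℂ | z ≠ 0})
    · intro z hz
      exact h1 z hz
    · exact (Set.finite_singleton (0 : ℂ)).infinite_compl
  have h4 : p.coeff w = f w i j := by
    rw [hp, Polynomial.finsetSum_coeff]
    simp only [Polynomial.coeff_monomial]
    rw [Finset.sum_ite_eq' _ w, if_pos hw]
  rw [← h4, h3, Polynomial.coeff_zero, Matrix.zero_apply]

section

variable (V : PHS ι)

/-- the sum without the denominator -/
noncomputable def S (z : ℂ) : Matrix ι ι ℂ := ∑ w ∈ Finset.range (2 * V.d + 1), z ^ w • V.E w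

variable {V}

theorem c_eq (z : ℂ) : V.c z = (z ^ V.d)⁻¹ • S V z := rfl

theorem S_mul {z z' : ℂ} (hz : z ≠ 0) (hz' : z' ≠ 0) : S V (z * z') = S V z * S V z' := by
  have h1 : V.c (z * z') = V.c z * V.c z' := V.mul z z' hz hz'
  rw [c_eq, c_eq, c_eq, Matrix.smul_mul, Matrix.mul_smul, smul_smul, mul_pow, mul_inv] at h1
  have h2 : ((z ^ V.d)⁻¹ * (z' ^ V.d)⁻¹) ≠ 0 :=
    mul_ne_zero (inv_ne_zero (pow_ne_zero _ hz)) (inv_ne_zero (pow_ne_zero _ hz'))
  exact smul_right_injective _ h2 h1

theorem E_mul_S {z : ℂ} (hz : z ≠ 0) {w : ℕ} (hw : w ∈ Finset.range (2 * V.d + 1)) :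
    V.E w * S V z = z ^ w • V.E w := by
  have h1 : ∀ w ∈ Finset.range (2 * V.d + 1), z ^ w • V.E w - V.E w * S V z = 0 := by
    apply coeff_zero
    intro z' hz'
    have h2 : S V (z' * z) = S V z' * S V z := S_mul hz' hz
    have h3 : S V z' * S V z = ∑ w ∈ Finset.range (2 * V.d + 1), z' ^ w • (V.E w * S V z) := by
      conv_lhs => rw [S]
      rw [Finset.sum_mul]
      apply Finset.sum_congr rfl
      intro w _
      rw [Matrix.smul_mul]
    have h4 : S V (z' * z) = ∑ w ∈ Finset.range (2 * V.d + 1), z' ^ w • (z ^ w • V.E w) := by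
      rw [S]
      apply Finset.sum_congr rfl
      intro w _
      rw [smul_smul, mul_pow]
    simp only [smul_sub]
    rw [Finset.sum_sub_distrib, ← h4, ← h3, h2, sub_self]
  exact (sub_eq_zero.1 (h1 w hw)).symm

theorem E_mul {w w' : ℕ} (hw : w ∈ Finset.range (2 * V.d + 1))
    (hw' : w' ∈ Finset.range (2 * V.d + 1)) : V.E w * V.E w' = if w = w' then V.E w else 0 := by
  have h1 : ∀ w' ∈ Finset.range (2 * V.d + 1), V.E w * V.E w' - (if w = w' then V.E w else 0) = 0 := by
    apply coeff_zero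
    intro z hz
    have h2 := E_mul_S (V := V) hz hw
    rw [S, Finset.mul_sum] at h2
    simp only [smul_sub, Matrix.mul_smul] at h2 ⊢
    rw [Finset.sum_sub_distrib, h2]
    simp only [smul_ite, smul_zero]
    rw [Finset.sum_ite_eq, if_pos hw, sub_self]
  exact sub_eq_zero.1 (h1 w' hw')

theorem sum_E : ∑ w ∈ Finset.range (2 * V.d + 1), V.E w = 1 := by
  have h1 : V.c 1 = 1 := V.one
  rw [c_eq, S] at h1
  simpa using h1

/-- reflection of the projections by the polarisation -/
theorem E_refl {w : ℕ} (hw : w ∈ Finset.range (2 * V.d + 1)) :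
    (V.E w)ᵀ * qc V.Q = qc V.Q * V.E (2 * V.d - w) := by
  have h1 : ∀ w ∈ Finset.range (2 * V.d + 1),
      (V.E w)ᵀ * qc V.Q - qc V.Q * V.E (2 * V.d - w) = 0 := by
    apply coeff_zero
    intro z hz
    have h2 : (V.c z)ᵀ * qc V.Q * V.c z = qc V.Q := V.inv z hz
    have h3 : V.c z * V.c z⁻¹ = 1 := PHS.c_inv hz
    have h4 : (V.c z)ᵀ * qc V.Q = qc V.Q * V.c z⁻¹ := by
      calc (V.c z)ᵀ * qc V.Q = (V.c z)ᵀ * qc V.Q * (V.c z * V.c z⁻¹) := by
            rw [h3, Matrix.mul_one]
        _ = ((V.c z)ᵀ * qc V.Q * V.c z) * V.c z⁻¹ := by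
            simp only [Matrix.mul_assoc]
        _ = qc V.Q * V.c z⁻¹ := by rw [h2]
    rw [c_eq, c_eq, transpose_smul, Matrix.smul_mul, Matrix.mul_smul, inv_pow, inv_inv] at h4
    have h5 : (S V z)ᵀ * qc V.Q = z ^ (2 * V.d) • (qc V.Q * S V z⁻¹) := by
      have h6 := congrArg (fun M => z ^ V.d • M) h4
      simp only [smul_smul] at h6
      rw [mul_inv_cancel₀ (pow_ne_zero _ hz), one_smul, ← pow_add, ← two_mul] at h6
      exact h6
    have h7 : (S V z)ᵀ * qc V.Q =
        ∑ w ∈ Finset.range (2 * V.d + 1), z ^ w • ((V.E w)ᵀ * qc V.Q) := by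
      rw [S, transpose_sum, Finset.sum_mul]
      apply Finset.sum_congr rfl
      intro w _
      rw [transpose_smul, Matrix.smul_mul]
    have h8 : z ^ (2 * V.d) • (qc V.Q * S V z⁻¹) =
        ∑ w ∈ Finset.range (2 * V.d + 1), z ^ w • (qc V.Q * V.E (2 * V.d - w)) := by
      rw [S, Finset.mul_sum, Finset.smul_sum, ← Finset.sum_range_reflect]
      apply Finset.sum_congr rfl
      intro w hw
      rw [Finset.mem_range] at hw
      have e1 : 2 * V.d + 1 - 1 - w = 2 * V.d - w := by omega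
      rw [e1, Matrix.mul_smul, smul_smul]
      congr 1
      have e2 : 2 * V.d = w + (2 * V.d - w) := by omega
      conv_lhs => rw [e2, pow_add]
      have e3 : w + (2 * V.d - w) - w = 2 * V.d - w := by omega
      rw [e3, inv_pow, mul_assoc, mul_inv_cancel₀ (pow_ne_zero _ hz), mul_one]
    simp only [smul_sub]
    rw [Finset.sum_sub_distrib, ← h7, ← h8, h5, sub_self]
  exact sub_eq_zero.1 (h1 w hw)

/-- the infinitesimal generator -/
noncomputable def H0 (V : PHS ι) : Matrix ι ι ℂ :=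
  ∑ w ∈ Finset.range (2 * V.d + 1), ((w : ℂ) - V.d) • V.E w

theorem hH_refl : hH V (RingEquiv.refl ℂ) = H0 V := by
  unfold hH H0
  ext i j
  simp

theorem E_mul_H {w : ℕ} (hw : w ∈ Finset.range (2 * V.d + 1)) :
    V.E w * H0 V = ((w : ℂ) - V.d) • V.E w := by
  rw [H0, Finset.mul_sum, Finset.sum_eq_single w]
  · rw [Matrix.mul_smul, E_mul hw hw, if_pos rfl]
  · intro w' hw' hne
    rw [Matrix.mul_smul, E_mul hw hw', if_neg (Ne.symm hne), smul_zero]
  · intro h
    exact absurd hw h

theorem H_mul_E {w : ℕ} (hw : w ∈ Finset.range (2 * V.d + 1)) :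
    H0 V * V.E w = ((w : ℂ) - V.d) • V.E w := by
  rw [H0, Finset.sum_mul, Finset.sum_eq_single w]
  · rw [Matrix.smul_mul, E_mul hw hw, if_pos rfl]
  · intro w' hw' hne
    rw [Matrix.smul_mul, E_mul hw' hw, if_neg hne, smul_zero]
  · intro h
    exact absurd hw h

theorem H_skew : (H0 V)ᵀ * qc V.Q + qc V.Q * H0 V = 0 := by
  have h1 : (H0 V)ᵀ * qc V.Q =
      ∑ w ∈ Finset.range (2 * V.d + 1), ((w : ℂ) - V.d) • (qc V.Q * V.E (2 * V.d - w)) := by
    rw [H0, transpose_sum, Finset.sum_mul]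
    apply Finset.sum_congr rfl
    intro w hw
    rw [transpose_smul, Matrix.smul_mul, E_refl hw]
  have h2 : qc V.Q * H0 V =
      ∑ w ∈ Finset.range (2 * V.d + 1), ((V.d : ℂ) - w) • (qc V.Q * V.E (2 * V.d - w)) := by
    rw [H0, Finset.mul_sum, ← Finset.sum_range_reflect]
    apply Finset.sum_congr rfl
    intro w hw
    rw [Finset.mem_range] at hw
    have e1 : 2 * V.d + 1 - 1 - w = 2 * V.d - w := by omega
    rw [e1, Matrix.mul_smul]
    congr 1
    rw [Nat.cast_sub (by omega)]
    push_cast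
    ring
  rw [h1, h2, ← Finset.sum_add_distrib]
  apply Finset.sum_eq_zero
  intro w _
  rw [← add_smul]
  have : (w : ℂ) - V.d + ((V.d : ℂ) - w) = 0 := by ring
  rw [this, zero_smul]

/-! ### stability -/

theorem hLie_map (τ : ℂ ≃+* ℂ) {x : Matrix ι ι ℂ} (hx : x ∈ hLie V) : x.map τ ∈ hLie V := by
  let 𝔫 : Submodule ℂ (Matrix ι ι ℂ) :=
    { carrier := {x | x.map τ ∈ hLie V}
      add_mem' := by
        intro a b ha hb
        have h1 : (a + b).map τ = a.map τ + b.map τ := by
          ext i j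
          simp
        change (a + b).map τ ∈ hLie V
        rw [h1]
        exact (hLie V).add_mem ha hb
      zero_mem' := by
        change (0 : Matrix ι ι ℂ).map τ ∈ hLie V
        have h1 : (0 : Matrix ι ι ℂ).map τ = 0 := by
          ext i j
          simp
        rw [h1]
        exact (hLie V).zero_mem
      smul_mem' := by
        intro c a ha
        have h1 : (c • a).map τ = τ c • a.map τ := by
          ext i j
          simp
        change (c • a).map τ ∈ hLie V
        rw [h1]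
        exact (hLie V).smul_mem _ ha }
  have h1 : hLie V ≤ 𝔫 := by
    apply hLie_le
    · intro σ
      change (hH V σ).map τ ∈ hLie V
      have h2 : (hH V σ).map τ = hH V (σ.trans τ) := by
        unfold hH
        ext i j
        simp
      rw [h2]
      exact hH_mem V _
    · intro a ha b hb
      change (a * b - b * a).map τ ∈ hLie V
      have h2 : (a * b - b * a).map τ = a.map τ * b.map τ - b.map τ * a.map τ := by
        have h3 : (a * b).map τ = a.map τ * b.map τ := Matrix.map_mul (f := (τ : ℂ →+* ℂ))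
        have h4 : (b * a).map τ = b.map τ * a.map τ := Matrix.map_mul (f := (τ : ℂ →+* ℂ))
        rw [← h3, ← h4]
        ext i j
        simp only [Matrix.map_apply, Matrix.sub_apply, map_sub]
      rw [h2]
      exact hLie_lie V _ ha _ hb
  exact h1 hx

theorem hLie_skew {x : Matrix ι ι ℂ} (hx : x ∈ hLie V) : xᵀ * qc V.Q = - (qc V.Q * x) := by
  let 𝔫 : Submodule ℂ (Matrix ι ι ℂ) :=
    { carrier := {x | xᵀ * qc V.Q = - (qc V.Q * x)}
      add_mem' := by
        intro a b ha hb
        change (a + b)ᵀ * qc V.Q = - (qc V.Q * (a + b))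
        have ha' : aᵀ * qc V.Q = - (qc V.Q * a) := ha
        have hb' : bᵀ * qc V.Q = - (qc V.Q * b) := hb
        rw [transpose_add, Matrix.add_mul, Matrix.mul_add, ha', hb', neg_add]
      zero_mem' := by
        change (0 : Matrix ι ι ℂ)ᵀ * qc V.Q = - (qc V.Q * 0)
        simp
      smul_mem' := by
        intro c a ha
        change (c • a)ᵀ * qc V.Q = - (qc V.Q * (c • a))
        have ha' : aᵀ * qc V.Q = - (qc V.Q * a) := ha
        rw [transpose_smul, Matrix.smul_mul, Matrix.mul_smul, ha', smul_neg] }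
  have h1 : hLie V ≤ 𝔫 := by
    apply hLie_le
    · intro σ
      change (hH V σ)ᵀ * qc V.Q = - (qc V.Q * hH V σ)
      have h2 : hH V σ = (H0 V).map σ := rfl
      have h3 : (qc V.Q).map σ = qc V.Q := by
        ext i j
        simp [qc]
      have h4 := congrArg (fun M : Matrix ι ι ℂ => M.map σ) (H_skew (V := V))
      have h5 : ((H0 V)ᵀ * qc V.Q + qc V.Q * H0 V).map σ =
          ((H0 V).map σ)ᵀ * qc V.Q + qc V.Q * (H0 V).map σ := by
        have h6 : ((H0 V)ᵀ * qc V.Q).map σ = ((H0 V).map σ)ᵀ * (qc V.Q).map σ :=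
          Matrix.map_mul (f := (σ : ℂ →+* ℂ))
        have h7 : (qc V.Q * H0 V).map σ = (qc V.Q).map σ * (H0 V).map σ :=
          Matrix.map_mul (f := (σ : ℂ →+* ℂ))
        rw [h3] at h6 h7
        rw [← h6, ← h7]
        ext i j
        simp only [Matrix.map_apply, Matrix.add_apply, map_add]
      rw [h2]
      have h8 : ((H0 V).map σ)ᵀ * qc V.Q + qc V.Q * (H0 V).map σ = 0 := by
        rw [← h5]
        refine h4.trans ?_
        ext i j
        simp
      exact eq_neg_of_add_eq_zero_left h8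
    · intro a ha b hb
      change (a * b - b * a)ᵀ * qc V.Q = - (qc V.Q * (a * b - b * a))
      have ha' : aᵀ * qc V.Q = - (qc V.Q * a) := ha
      have hb' : bᵀ * qc V.Q = - (qc V.Q * b) := hb
      rw [transpose_sub, transpose_mul, transpose_mul, Matrix.sub_mul, Matrix.mul_assoc,
        Matrix.mul_assoc, ha', hb', Matrix.mul_neg, Matrix.mul_neg, ← Matrix.mul_assoc,
        ← Matrix.mul_assoc, ha', hb', Matrix.mul_sub]
      simp only [Matrix.neg_mul, Matrix.mul_assoc]
      abel
  exact h1 hx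

/-- the parts for the grading by `H` -/
theorem grade (q : Polynomial ℂ) {y : Matrix ι ι ℂ} (hy : y ∈ hLie V) :
    ∑ w ∈ Finset.range (2 * V.d + 1), ∑ w' ∈ Finset.range (2 * V.d + 1),
      q.eval ((w : ℂ) - w') • (V.E w * y * V.E w') ∈ hLie V := by
  have hH : H0 V ∈ hLie V := by
    rw [← hH_refl]
    exact hH_mem V _
  induction q using Polynomial.induction_on' generalizing y with
  | add p q hp hq =>
    have h1 := (hLie V).add_mem (hp hy) (hq hy)
    rw [← Finset.sum_add_distrib] at h1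
    simp only [← Finset.sum_add_distrib, ← add_smul, ← Polynomial.eval_add] at h1
    exact h1
  | monomial n c =>
    induction n generalizing y with
    | zero =>
      have h1 : ∑ w ∈ Finset.range (2 * V.d + 1), ∑ w' ∈ Finset.range (2 * V.d + 1),
          (Polynomial.monomial 0 c).eval ((w : ℂ) - w') • (V.E w * y * V.E w') = c • y := by
        simp only [Polynomial.eval_monomial, pow_zero, mul_one]
        calc ∑ w ∈ Finset.range (2 * V.d + 1), ∑ w' ∈ Finset.range (2 * V.d + 1),
              c • (V.E w * y * V.E w') =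
              c • ((∑ w ∈ Finset.range (2 * V.d + 1), V.E w) * y *
                ∑ w' ∈ Finset.range (2 * V.d + 1), V.E w') := by
              rw [Finset.sum_mul, Finset.sum_mul, Finset.smul_sum]
              apply Finset.sum_congr rfl
              intro w _
              rw [Finset.mul_sum, Finset.smul_sum]
          _ = c • y := by rw [sum_E, Matrix.one_mul, Matrix.mul_one]
      rw [h1]
      exact (hLie V).smul_mem _ hy
    | succ n ih =>
      have h1 := ih (hLie_lie V _ hH _ hy)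
      have h2 : ∑ w ∈ Finset.range (2 * V.d + 1), ∑ w' ∈ Finset.range (2 * V.d + 1),
          (Polynomial.monomial n c).eval ((w : ℂ) - w') •
            (V.E w * (H0 V * y - y * H0 V) * V.E w') =
          ∑ w ∈ Finset.range (2 * V.d + 1), ∑ w' ∈ Finset.range (2 * V.d + 1),
          (Polynomial.monomial (n + 1) c).eval ((w : ℂ) - w') • (V.E w * y * V.E w') := by
        apply Finset.sum_congr rfl
        intro w hw
        apply Finset.sum_congr rfl
        intro w' hw'
        have h3 : V.E w * (H0 V * y - y * H0 V) * V.E w' =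
            ((w : ℂ) - w') • (V.E w * y * V.E w') := by
          rw [Matrix.mul_sub, Matrix.sub_mul, ← Matrix.mul_assoc, E_mul_H hw,
            ← Matrix.mul_assoc, Matrix.mul_assoc _ (H0 V), H_mul_E hw', Matrix.mul_smul,
            Matrix.smul_mul, Matrix.smul_mul, ← sub_smul]
          congr 1
          ring
        rw [h3, smul_smul, Polynomial.eval_monomial, Polynomial.eval_monomial, pow_succ]
        congr 1
        ring
      rwa [h2] at h1

theorem conj_c {y : Matrix ι ι ℂ} (hy : y ∈ hLie V) :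
    V.c Complex.I⁻¹ * y * V.c Complex.I ∈ hLie V := by
  classical
  set A : Finset ℂ := ((Finset.range (2 * V.d + 1)) ×ˢ (Finset.range (2 * V.d + 1))).image
    fun p : ℕ × ℕ => (p.1 : ℂ) - p.2 with hA
  -- the interpolated function
  have hfun : ∃ f : ℂ → ℂ, ∀ w w' : ℕ, f ((w : ℂ) - w') = (Complex.I⁻¹) ^ w * Complex.I ^ w' := by
    have h1 : ∀ u : ℂ, ∃ v : ℂ, ∀ w w' : ℕ, u = (w : ℂ) - w' →
        v = (Complex.I⁻¹) ^ w * Complex.I ^ w' := by
      intro u
      by_cases h : ∃ k : ℤ, u = k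
      · obtain ⟨k, hk⟩ := h
        refine ⟨Complex.I⁻¹ ^ k, fun w w' hw => ?_⟩
        have h2 : k = (w : ℤ) - w' := by
          rw [hk] at hw
          exact_mod_cast hw
        rw [h2, zpow_sub₀ (inv_ne_zero Complex.I_ne_zero), zpow_natCast, zpow_natCast,
          div_eq_mul_inv]
        congr 1
        rw [inv_pow, inv_inv]
      · refine ⟨0, fun w w' hw => absurd ⟨(w : ℤ) - w', ?_⟩ h⟩
        rw [hw]
        push_cast
        ring
    choose f hf using h1
    exact ⟨f, fun w w' => hf _ w w' rfl⟩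
  obtain ⟨f, hf⟩ := hfun
  have h1 := grade (V := V) (Lagrange.interpolate A id f) hy
  have h2 : ∀ w ∈ Finset.range (2 * V.d + 1), ∀ w' ∈ Finset.range (2 * V.d + 1),
      (Lagrange.interpolate A id f).eval ((w : ℂ) - w') = (Complex.I⁻¹) ^ w * Complex.I ^ w' := by
    intro w hw w' hw'
    have hm : (w : ℂ) - w' ∈ A :=
      Finset.mem_image.2 ⟨(w, w'), Finset.mem_product.2 ⟨hw, hw'⟩, rfl⟩
    have h3 := Lagrange.eval_interpolate_at_node (s := A) (v := id) f Function.injective_id.injOn hm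
    rw [← hf w w']
    simpa using h3
  have h3 : V.c Complex.I⁻¹ * y * V.c Complex.I =
      ∑ w ∈ Finset.range (2 * V.d + 1), ∑ w' ∈ Finset.range (2 * V.d + 1),
      (Lagrange.interpolate A id f).eval ((w : ℂ) - w') • (V.E w * y * V.E w') := by
    rw [c_eq, c_eq, Matrix.smul_mul, Matrix.smul_mul, Matrix.mul_smul, smul_smul]
    have e1 : ((Complex.I⁻¹) ^ V.d)⁻¹ * (Complex.I ^ V.d)⁻¹ = 1 := by
      rw [inv_pow, inv_inv, mul_inv_cancel₀ (pow_ne_zero _ Complex.I_ne_zero)]
    rw [e1, one_smul, S, S, Finset.sum_mul, Finset.sum_mul]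
    apply Finset.sum_congr rfl
    intro w hw
    rw [Finset.mul_sum]
    apply Finset.sum_congr rfl
    intro w' hw'
    rw [h2 w hw w' hw', Matrix.smul_mul, Matrix.smul_mul, Matrix.mul_smul, smul_smul]
  rw [h3]
  exact h1

/-- the Lie algebra is stable under the adjoint in suitable coordinates -/
theorem main_STAR : S_STAR := by
  intro ι _ _ V
  obtain ⟨B, hB, hgram⟩ := V.gram
  have hBu : IsUnit B.det := isUnit_iff_ne_zero.2 hB
  have h1 : B * B⁻¹ = 1 := Matrix.mul_nonsing_inv _ hBu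
  have h2 : B⁻¹ * B = 1 := Matrix.nonsing_inv_mul _ hBu
  have hgram' : qc V.Q * V.c Complex.I = Bᴴ * B := hgram
  have hmem : ∀ x : Matrix ι ι ℂ, x ∈ cj B B⁻¹ (hLie V) ↔ ∃ y ∈ hLie V, B * y * B⁻¹ = x := by
    intro x
    rw [cj, Submodule.mem_map]
    simp only [LinearMap.comp_apply, LinearMap.mulLeft_apply, LinearMap.mulRight_apply,
      Matrix.mul_assoc]
  refine ⟨B, B⁻¹, h1, ?_, ?_⟩
  · intro x hx
    obtain ⟨y, hy, rfl⟩ := (hmem x).1 hx
    rw [hmem]
    -- the complex conjugate
    set yb : Matrix ι ι ℂ := y.map (starRingAut : ℂ ≃+* ℂ) with hyb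
    have hyb' : yb ∈ hLie V := hLie_map _ hy
    have hyH : yᴴ = ybᵀ := by
      ext i j
      simp [hyb]
    have h3 := hLie_skew hyb'
    have h4 : V.c Complex.I * V.c Complex.I⁻¹ = 1 := PHS.c_inv Complex.I_ne_zero
    refine ⟨-(V.c Complex.I⁻¹ * yb * V.c Complex.I), (hLie V).neg_mem (conj_c hyb'), ?_⟩
    -- multiply by `Bᴴ` and `B`
    have h5 : Bᴴ * (B * -(V.c Complex.I⁻¹ * yb * V.c Complex.I) * B⁻¹) * B =
        Bᴴ * (B * y * B⁻¹)ᴴ * B := by
      have e1 : Bᴴ * (B * y * B⁻¹)ᴴ * B = yᴴ * (Bᴴ * B) := by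
        rw [conjTranspose_mul, conjTranspose_mul, ← Matrix.mul_assoc, ← Matrix.mul_assoc,
          ← conjTranspose_mul, h2, conjTranspose_one, Matrix.one_mul, Matrix.mul_assoc]
      have e2 : Bᴴ * (B * -(V.c Complex.I⁻¹ * yb * V.c Complex.I) * B⁻¹) * B =
          (Bᴴ * B) * -(V.c Complex.I⁻¹ * yb * V.c Complex.I) := by
        simp only [Matrix.mul_assoc]
        rw [h2, Matrix.mul_one]
      rw [e1, e2, ← hgram', hyH, ← Matrix.mul_assoc, h3, Matrix.mul_neg, Matrix.neg_mul]
      congr 1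
      calc qc V.Q * V.c Complex.I * (V.c Complex.I⁻¹ * yb * V.c Complex.I)
          = qc V.Q * (V.c Complex.I * V.c Complex.I⁻¹) * yb * V.c Complex.I := by
            simp only [Matrix.mul_assoc]
        _ = qc V.Q * yb * V.c Complex.I := by rw [h4, Matrix.mul_one]
    have h6 : (B⁻¹)ᴴ * Bᴴ = 1 := by rw [← conjTranspose_mul, h1, conjTranspose_one]
    have h7 : ∀ M : Matrix ι ι ℂ, (B⁻¹)ᴴ * (Bᴴ * M * B) * B⁻¹ = M := by
      intro M
      calc (B⁻¹)ᴴ * (Bᴴ * M * B) * B⁻¹ = ((B⁻¹)ᴴ * Bᴴ) * M * (B * B⁻¹) := by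
            simp only [Matrix.mul_assoc]
        _ = M := by rw [h6, h1, Matrix.one_mul, Matrix.mul_one]
    rw [← h7 (B * -(V.c Complex.I⁻¹ * yb * V.c Complex.I) * B⁻¹), h5, h7]
  · intro x hx y hy
    obtain ⟨x', hx', rfl⟩ := (hmem x).1 hx
    obtain ⟨y', hy', rfl⟩ := (hmem y).1 hy
    rw [hmem]
    refine ⟨x' * y' - y' * x', hLie_lie V _ hx' _ hy', ?_⟩
    have e : ∀ a b : Matrix ι ι ℂ, B * a * B⁻¹ * (B * b * B⁻¹) = B * (a * b) * B⁻¹ := by
      intro a b
      calc B * a * B⁻¹ * (B * b * B⁻¹) = B * a * (B⁻¹ * B) * b * B⁻¹ := by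
            simp only [Matrix.mul_assoc]
        _ = B * (a * b) * B⁻¹ := by
            rw [h2, Matrix.mul_one]
            simp only [Matrix.mul_assoc]
    rw [e, e, Matrix.mul_sub, Matrix.sub_mul]

end

end Pool.Agent.Q251.ZG
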